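import Pool.Agent.Helper40_Dio.AStmt

/-! # DIO, module CLY (helper59): classification of the solution `(y, x)`. -/

set_option autoImplicit false

namespace Pool.Agent.DIO.H59

theorem sqg_inv (a c s z0 x0 : ℤ) (hs : s * s = a * c + 1) (m : ℕ) :
    a * (sqg a c s z0 x0 m).1 ^ 2 - c * (sqg a c s z0 x0 m).2 ^ 2 = a * z0 ^ 2 - c * x0 ^ 2 := by
  induction m with
  | zero => simp [sqg]
  | succ m ih =>
    simp only [sqg]
    rw [← ih]
    linear_combination (a * (sqg a c s z0 x0 m).1 ^ 2 - c * (sqg a c s z0 x0 m).2 ^ 2) * hs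

theorem sqg_shift (a c s z0 x0 : ℤ) (m : ℕ) :
    sqg a c s z0 x0 (m + 1) = sqg a c s (s * z0 + c * x0) (s * x0 + a * z0) m := by
  induction m with
  | zero => simp [sqg]
  | succ m ih =>
    have h1 : sqg a c s z0 x0 (m + 1 + 1) = (s * (sqg a c s z0 x0 (m + 1)).1 +
      c * (sqg a c s z0 x0 (m + 1)).2, s * (sqg a c s z0 x0 (m + 1)).2 +
      a * (sqg a c s z0 x0 (m + 1)).1) := rfl
    rw [h1, ih]
    rfl

theorem sqg_fst_mod (a c s z0 x0 : ℤ) (m : ℕ) :
    (sqg a c s z0 x0 m).1 ≡ s ^ m * z0 [ZMOD c] := by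
  induction m with
  | zero => simp [sqg]
  | succ m ih =>
    simp only [sqg]
    have h1 : s * (sqg a c s z0 x0 m).1 + c * (sqg a c s z0 x0 m).2 ≡
        s * (s ^ m * z0) + 0 [ZMOD c] := by
      apply Int.ModEq.add (ih.mul_left s)
      exact (Int.modEq_zero_iff_dvd.mpr (dvd_mul_right _ _))
    refine h1.trans ?_
    rw [add_zero, pow_succ]
    have : s * (s ^ m * z0) = s ^ m * s * z0 := by ring
    rw [this]

theorem sqg_snd_mod (a c s z0 x0 : ℤ) (m : ℕ) :
    (sqg a c s z0 x0 m).2 ≡ s ^ m * x0 [ZMOD a] := by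
  induction m with
  | zero => simp [sqg]
  | succ m ih =>
    simp only [sqg]
    have h1 : s * (sqg a c s z0 x0 m).2 + a * (sqg a c s z0 x0 m).1 ≡
        s * (s ^ m * x0) + 0 [ZMOD a] := by
      apply Int.ModEq.add (ih.mul_left s)
      exact (Int.modEq_zero_iff_dvd.mpr (dvd_mul_right _ _))
    refine h1.trans ?_
    rw [add_zero, pow_succ]
    have : s * (s ^ m * x0) = s ^ m * s * x0 := by ring
    rw [this]

theorem pow_mod_even {r b : ℤ} (h : r * r ≡ 1 [ZMOD b]) {k : ℕ} (hk : Even k) :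
    r ^ k ≡ 1 [ZMOD b] := by
  obtain ⟨j, hj⟩ := hk
  have e : r ^ k = (r * r) ^ j := by rw [hj, pow_add, mul_pow]
  rw [e]
  simpa using h.pow j

theorem pow_mod_odd {r b : ℤ} (h : r * r ≡ 1 [ZMOD b]) {k : ℕ} (hk : ¬ Even k) :
    r ^ k ≡ r [ZMOD b] := by
  rw [Nat.not_even_iff_odd] at hk
  obtain ⟨j, hj⟩ := hk
  have e : r ^ k = (r ^ (2 * j)) * r := by rw [hj, pow_succ]
  rw [e]
  have := (pow_mod_even h (even_two_mul j)).mul_right r
  simpa using this

theorem small_w {b y w : ℤ} (hb : 2 ≤ b) (h1 : 2 * y < b) (h2 : -b < 2 * y)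
    (hw : y - 1 = b * w) : w = 0 := by
  rcases lt_trichotomy w 0 with h | h | h
  · exfalso
    have : b * w ≤ b * (-1) := mul_le_mul_of_nonneg_left (by omega) (by omega)
    linarith
  · exact h
  · exfalso
    have : b * 1 ≤ b * w := mul_le_mul_of_nonneg_left (by omega) (by omega)
    linarith

theorem small_w' {b y w r : ℤ} (hb : 2 ≤ b) (h1 : 2 * y < b) (h2 : -b < 2 * y)
    (hr0 : 0 < r) (hrb : r < b) (hw : y - r = b * w) : w = 0 ∨ w = -1 := by
  rcases lt_trichotomy w 0 with h | h | h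
  · right
    by_contra hne
    have : b * w ≤ b * (-2) := mul_le_mul_of_nonneg_left (by omega) (by omega)
    linarith
  · left; exact h
  · exfalso
    have : b * 1 ≤ b * w := mul_le_mul_of_nonneg_left (by omega) (by omega)
    linarith

theorem sq_eq_pos {x y : ℤ} (hx : 0 < x) (hy : 0 < y) (h : x ^ 2 = y ^ 2) : x = y :=
  (pow_left_inj₀ hx.le hy.le (by norm_num)).mp h

theorem no_sq {x a : ℤ} (hx : 0 < x) (ha : 0 < a) (h : x ^ 2 = a ^ 2 + 1) : False := by
  have h3 : a < x := by nlinarith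
  nlinarith

theorem bounds_y {b y : ℤ} (hb : 0 < b) (h : 4 * y ^ 2 < b ^ 2) : 2 * y < b ∧ -b < 2 * y := by
  have h1 : (2 * y) ^ 2 < b ^ 2 := by linarith [mul_pow 2 y 2]
  have h2 := abs_lt_of_sq_lt_sq h1 hb.le
  rw [abs_lt] at h2
  exact ⟨h2.2, h2.1⟩

theorem r_bounds {a b r : ℤ} (ha : 0 < a) (hab : a < b) (hr0 : 0 < r) (h : r * r = a * b + 1) :
    r < b ∧ a < r := by
  constructor
  · by_contra hle
    push Not at hle
    nlinarith
  · by_contra hle
    push Not at hle
    nlinarith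

theorem cly (hPEL : PelStatement) : ClyStatement := by
  intro a b c r x y z m n ε ε' hE hM
  obtain ⟨ha, hab, hr, hc⟩ := hE
  have hε : ε * ε = 1 := by rcases hM.hε with h | h <;> rw [h] <;> norm_num
  have hε' : ε' * ε' = 1 := by
    rcases hM.par with ⟨_, _, h⟩ | ⟨_, _, h⟩ <;> rw [h]
    · exact hε
    · rw [neg_mul_neg]; exact hε
  have haz : (0 : ℤ) < a := by exact_mod_cast ha
  have habz : (a : ℤ) < b := by exact_mod_cast hab
  have hrz : (r : ℤ) * r = a * b + 1 := by exact_mod_cast hr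
  have hcz : (c : ℤ) = a + b + 2 * r := by exact_mod_cast hc
  have hr0 : (0 : ℤ) < r := by
    have : 0 < r := by
      rcases Nat.eq_zero_or_pos r with h | h
      · rw [h] at hr; omega
      · exact h
    exact_mod_cast this
  have hs : ((a : ℤ) + r) * (a + r) = a * c + 1 := by rw [hcz]; linear_combination hrz
  have ht : ((b : ℤ) + r) * (b + r) = b * c + 1 := by rw [hcz]; linear_combination hrz
  have hc0 : (c : ℤ) ≠ 0 := by
    have : 0 < c := by omega
    exact_mod_cast this.ne'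
  have i1 := sqg_inv a c (a + r) ε 1 hs m
  have i2 := sqg_inv b c (b + r) ε' 1 ht n
  rw [hM.e1] at i1
  rw [hM.e2] at i2
  simp only at i1 i2
  have i3 : (a : ℤ) * y ^ 2 - b * x ^ 2 = a - b := by
    apply mul_left_cancel₀ hc0
    linear_combination (b : ℤ) * i1 - (a : ℤ) * i2 + (b : ℤ) * a * hε - (a : ℤ) * b * hε'
  obtain ⟨k, y0, x0, hx0, hp, hsm, hk⟩ :=
    hPEL a b r y x haz habz hr0 hrz hM.hy hM.hx i3
  have hrr : (r : ℤ) * r ≡ 1 [ZMOD b] := by
    rw [hrz]
    have : (a : ℤ) * b + 1 ≡ 0 + 1 [ZMOD b] :=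
      Int.ModEq.add_right 1 (Int.modEq_zero_iff_dvd.mpr (dvd_mul_left _ _))
    simpa using this
  have m1 : y ≡ (r : ℤ) ^ k * y0 [ZMOD b] := by
    have := sqg_fst_mod a b r y0 x0 k
    rw [hk] at this
    exact this
  have m2 : y ≡ (r : ℤ) ^ n [ZMOD b] := by
    have h := sqg_snd_mod b c (b + r) ε' 1 n
    rw [hM.e2] at h
    simp only [mul_one] at h
    refine h.trans ?_
    refine Int.ModEq.pow n ?_
    have : (b : ℤ) + r ≡ 0 + r [ZMOD b] :=
      Int.ModEq.add_right _ (Int.modEq_zero_iff_dvd.mpr dvd_rfl)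
    simpa using this
  have m3 : (r : ℤ) ^ k * y0 ≡ (r : ℤ) ^ n [ZMOD b] := m1.symm.trans m2
  obtain ⟨hlt1, hlt2⟩ := bounds_y (by omega : (0 : ℤ) < b) hsm
  obtain ⟨hrb, har⟩ := r_bounds haz habz hr0 hrz
  by_cases hpar : (Even k ↔ Even n)
  · -- `y0 ≡ 1`
    have m4 : y0 ≡ 1 [ZMOD b] := by
      by_cases hke : Even k
      · have hne := hpar.mp hke
        have h1 := ((pow_mod_even hrr hke).mul_right y0).symm.trans
          (m3.trans (pow_mod_even hrr hne))
        simpa using h1
      · have hne : ¬ Even n := fun h => hke (hpar.mpr h)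
        have h1 := ((pow_mod_odd hrr hke).mul_right y0).symm.trans
          (m3.trans (pow_mod_odd hrr hne))
        have h2 := h1.mul_left (r : ℤ)
        rw [← mul_assoc] at h2
        have h3 := ((hrr.mul_right y0).symm.trans h2).trans hrr
        simpa using h3
    obtain ⟨w, hw⟩ := m4.symm.dvd
    have hw0 : w = 0 := small_w (by omega) hlt1 hlt2 hw
    have hy0 : y0 = 1 := by rw [hw0] at hw; linarith
    have hx1 : x0 = 1 := by
      rw [hy0] at hp
      have h1 : (b : ℤ) * (x0 ^ 2) = b * 1 := by linear_combination -hp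
      have h2 := mul_left_cancel₀ (by omega : (b : ℤ) ≠ 0) h1
      exact sq_eq_pos hx0 one_pos (by rw [h2]; norm_num)
    refine ⟨k, hpar, ?_⟩
    rw [← hk, hy0, hx1]
  · -- `y0 ≡ r`
    have m4 : y0 ≡ r [ZMOD b] := by
      by_cases hke : Even k
      · have hne : ¬ Even n := fun h => hpar ⟨fun _ => h, fun _ => hke⟩
        have h1 := ((pow_mod_even hrr hke).mul_right y0).symm.trans
          (m3.trans (pow_mod_odd hrr hne))
        simpa using h1
      · have hne : Even n := by
          by_contra h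
          exact hpar ⟨fun h' => absurd h' hke, fun h' => absurd h' h⟩
        have h1 := ((pow_mod_odd hrr hke).mul_right y0).symm.trans
          (m3.trans (pow_mod_even hrr hne))
        have h2 := h1.mul_left (r : ℤ)
        rw [← mul_assoc] at h2
        have h3 := (hrr.mul_right y0).symm.trans h2
        simpa using h3
    obtain ⟨w, hw⟩ := m4.symm.dvd
    have hw0 : w = 0 ∨ w = -1 := small_w' (by omega) hlt1 hlt2 hr0 hrb hw
    rcases hw0 with hw0 | hw0
    · exfalso
      have hy0 : y0 = r := by rw [hw0] at hw; linarith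
      rw [hy0] at hp
      have h1 : (b : ℤ) * (x0 ^ 2) = b * (a ^ 2 + 1) := by linear_combination -hp + (a : ℤ) * hrz
      have h2 := mul_left_cancel₀ (by omega : (b : ℤ) ≠ 0) h1
      exact no_sq hx0 haz h2
    · have hy0 : y0 = r - b := by rw [hw0] at hw; linarith
      have hx1 : x0 = r - a := by
        rw [hy0] at hp
        have h1 : (b : ℤ) * (x0 ^ 2) = b * ((r - a) ^ 2) := by
          linear_combination -hp + ((a : ℤ) - b) * hrz
        have h2 := mul_left_cancel₀ (by omega : (b : ℤ) ≠ 0) h1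
        exact sq_eq_pos hx0 (by linarith) h2
      rcases Nat.eq_zero_or_pos k with hk0 | hkpos
      · exfalso
        rw [hk0] at hk
        have h1 : y0 = y := congrArg Prod.fst hk
        have := hM.hy
        rw [← h1, hy0] at this
        linarith
      · obtain ⟨l, rfl⟩ : ∃ l, k = l + 1 := ⟨k - 1, by omega⟩
        refine ⟨l, ?_, ?_⟩
        · rw [Nat.even_add_one] at hpar
          tauto
        · rw [← hk, sqg_shift, hy0, hx1]
          have e1 : (r : ℤ) * (r - b) + b * (r - a) = 1 := by linear_combination hrz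
          have e2 : (r : ℤ) * (r - a) + a * (r - b) = 1 := by linear_combination hrz
          rw [e1, e2]

end Pool.Agent.DIO.H59
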