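import Pool.Agent.Helper40_Dio.Stmt

/-! # DIO, module BAK (helper59): Baker's theorem in the form needed. -/

set_option autoImplicit false

namespace Pool.Agent.DIO.H59

open Real

theorem sigma_term {S : Type} [CommRing S] {O : Ord4 S} (d : BData O) (L : ℕ) (x : Idx L)
    (l : ℕ) :
    O.σ 0 (term d L x l) =
      ((d.D : ℝ) ^ L * (d.a1 ^ (x.1 : ℕ) * d.a2 ^ (x.2.1 : ℕ) * d.a3 ^ (x.2.2 : ℕ))) ^ l := by
  have hx : (x.2.2 : ℕ) + (L - (x.2.2 : ℕ)) = L := by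
    have := x.2.2.isLt
    omega
  unfold term
  simp only [map_mul, map_pow, map_natCast, d.s1, d.s2, d.s3]
  have h1 : ((d.D : ℝ) ^ L) = (d.D : ℝ) ^ (x.2.2 : ℕ) * (d.D : ℝ) ^ (L - (x.2.2 : ℕ)) := by
    rw [← pow_add, hx]
  rw [h1]
  simp only [mul_pow, pow_mul]
  ring

theorem bak (hini : IniStatement) (hext : ExtStatement) (hpar : ParStatement)
    (hvdm : VdmStatement) : BakStatement := by
  obtain ⟨P0, hP02, hP⟩ := hpar
  have hP0r : (2 : ℝ) ≤ (P0 : ℝ) := by exact_mod_cast hP02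
  refine ⟨(2 * (P0 : ℝ)) ^ 60, one_le_pow₀ (by linarith), ?_⟩
  intro S _ O d hind
  by_contra hcon
  push Not at hcon
  have hQ := d.hQ
  have hB := d.hB
  have hB0 : 0 ≤ d.B := by linarith
  -- the real number `r = B^(1/60)`
  obtain ⟨r, hr0, hr⟩ : ∃ r : ℝ, 0 ≤ r ∧ r ^ 60 = d.B := by
    refine ⟨d.B ^ ((60 : ℕ) : ℝ)⁻¹, Real.rpow_nonneg hB0 _, ?_⟩
    exact Real.rpow_inv_natCast_pow hB0 (by norm_num)
  have hrQ : 2 * (P0 : ℝ) * d.Q < r := by
    by_contra hle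
    push Not at hle
    have h1 : r ^ 60 ≤ (2 * (P0 : ℝ) * d.Q) ^ 60 := pow_le_pow_left₀ hr0 hle 60
    rw [hr, mul_pow] at h1
    linarith
  set P : ℕ := ⌊r⌋₊ with hPdef
  have hPr : (P : ℝ) ≤ r := Nat.floor_le hr0
  have hrP : r < (P : ℝ) + 1 := Nat.lt_floor_add_one r
  have hPQ : (P0 : ℝ) * d.Q ≤ P := by nlinarith
  have hPP0 : P0 ≤ P := by
    have : (P0 : ℝ) ≤ P := by nlinarith
    exact_mod_cast this
  have hP2 : 2 ≤ P := le_trans hP02 hPP0
  have hBl : (P : ℝ) ^ 60 ≤ d.B := by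
    rw [← hr]; exact pow_le_pow_left₀ (by positivity) hPr 60
  have hBu : d.B ≤ ((P : ℝ) + 1) ^ 60 := by
    rw [← hr]; exact pow_le_pow_left₀ hr0 hrP.le 60
  obtain ⟨hcount, hineq⟩ := hP P d.Q d.B hPP0 hQ hPQ hBl hBu
  have hP6 : 2 ≤ P ^ 6 := le_trans (by norm_num) (Nat.pow_le_pow_left hP2 6)
  have hL1 : P ^ 6 - 1 + 1 = P ^ 6 := by omega
  have hL : 1 ≤ P ^ 6 - 1 := by omega
  obtain ⟨p, hp0, hpb, hz⟩ := hini S O d (P ^ 6 - 1) (2 ^ 17 * P ^ 8) P hL (by omega)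
    (by rw [hL1]; exact hcount)
  have hind17 : ∀ j : ℕ, j ≤ 17 →
      Zero d (P ^ 6 - 1) p (2 ^ (17 - j) * P ^ 8) (P ^ (j + 1)) := by
    intro j
    induction j with
    | zero => intro _; simpa using hz
    | succ j ih =>
      intro hj
      have ihj := ih (by omega)
      have hk : 2 * (2 ^ (16 - j) * P ^ 8) = 2 ^ (17 - j) * P ^ 8 := by
        have : 17 - j = (16 - j) + 1 := by omega
        rw [this, pow_succ]; ring
      have hk' : 17 - (j + 1) = 16 - j := by omega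
      rw [hk']
      have hpos : 0 < P := by omega
      refine hext S O d (P ^ 6 - 1) (2 ^ (16 - j) * P ^ 8) (P ^ (j + 1)) (P ^ (j + 1 + 1))
        (siz0 (P ^ 6 - 1) (2 ^ 17 * P ^ 8) P d.Q d.B) p hL ?_ ?_ ?_ hpb ?_ ?_
      · exact Nat.one_le_iff_ne_zero.mpr (by positivity)
      · exact Nat.one_le_iff_ne_zero.mpr (by positivity)
      · exact Nat.pow_le_pow_right hpos (by omega)
      · exact hineq j (by omega)
      · rw [hk]; exact ihj
  have hfin := hind17 17 le_rfl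
  apply hp0
  have hcard : Fintype.card (Idx (P ^ 6 - 1)) = P ^ (17 + 1) := by
    simp only [Idx, Fintype.card_prod, Fintype.card_fin, hL1]
    ring
  have hDpos : (0 : ℝ) < d.D := by
    have := d.hD
    exact_mod_cast this
  refine hvdm (Idx (P ^ 6 - 1))
    (fun x => (d.D : ℝ) ^ (P ^ 6 - 1) *
      (d.a1 ^ (x.1 : ℕ) * d.a2 ^ (x.2.1 : ℕ) * d.a3 ^ (x.2.2 : ℕ))) p ?_ ?_ ?_
  · intro x y hxy
    have h1 : (d.D : ℝ) ^ (P ^ 6 - 1) ≠ 0 := by positivity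
    have h2 := mul_left_cancel₀ h1 hxy
    have h3 := hind ((x.1 : ℕ), (x.2.1 : ℕ), (x.2.2 : ℕ)) ((y.1 : ℕ), (y.2.1 : ℕ), (y.2.2 : ℕ)) h2
    simp only [Prod.mk.injEq] at h3
    obtain ⟨e1, e2, e3⟩ := h3
    exact Prod.ext (Fin.ext e1) (Prod.ext (Fin.ext e2) (Fin.ext e3))
  · intro x
    have := d.p1
    have := d.p2
    have := d.p3
    positivity
  · intro l hl1 hl2
    have h1 := hfin 0 0 l (Nat.zero_le _) (Nat.zero_le _) hl1 (by rw [← hcard]; exact hl2)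
    have h2 := congrArg (O.σ 0) h1
    rw [map_sum, map_zero] at h2
    rw [← h2]
    refine Finset.sum_congr rfl fun x _ => ?_
    rw [map_mul, sigma_term]
    simp

end Pool.Agent.DIO.H59
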