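import Pool.Agent.Helper40_Dio.AStmt

/-! # DIO, module CNC (helper59): the congruence modulo `c`. -/

set_option autoImplicit false

namespace Pool.Agent.DIO.H59

theorem sqg_even (a c s e : ℤ) (hs : s * s = a * c + 1) (μ : ℕ) :
    ∃ u v : ℤ, sqg a c s e 1 (2 * μ) =
      (e * (1 + 2 * a * c * (μ : ℤ) ^ 2) + 2 * s * c * μ + c ^ 2 * u,
        1 + 2 * e * a * s * μ + c * v) := by
  induction μ with
  | zero => exact ⟨0, 0, by simp [sqg]⟩
  | succ μ ih =>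
    obtain ⟨u, v, h⟩ := ih
    have hstep : 2 * (μ + 1) = 2 * μ + 1 + 1 := by ring
    refine ⟨u + 4 * e * a ^ 2 * (μ : ℤ) ^ 2 + 4 * a * s * μ + 2 * a * c * u +
      4 * e * a ^ 2 * μ + 2 * s * v,
      v + 2 * a * (1 + 2 * e * a * s * μ + c * v) + 4 * e * a ^ 2 * s * (μ : ℤ) ^ 2 +
        4 * a * s ^ 2 * μ + 2 * a * s * c * u, ?_⟩
    rw [hstep]
    simp only [sqg, h]
    push_cast
    refine Prod.ext ?_ ?_
    · show s * (s * _ + c * _) + c * (s * _ + a * _) = _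
      linear_combination (e * (1 + 2 * a * c * (μ : ℤ) ^ 2) + 2 * s * c * μ + c ^ 2 * u +
        4 * c * e * a * μ) * hs
    · show s * (s * _ + a * _) + a * (s * _ + c * _) = _
      linear_combination (1 + 2 * e * a * s * μ + c * v) * hs

theorem sqg_odd (a c s e : ℤ) (hs : s * s = a * c + 1) (μ : ℕ) :
    ∃ u : ℤ, (sqg a c s e 1 (2 * μ + 1)).1 =
      e * s * (1 + 2 * a * c * (μ : ℤ) * (μ + 1)) + c * (1 + 2 * μ) + c ^ 2 * u := by
  obtain ⟨u, v, h⟩ := sqg_even a c s e hs μ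
  refine ⟨s * u + v + 2 * a * μ, ?_⟩
  simp only [sqg, h]
  linear_combination (2 * c * μ) * hs

theorem even_case (a s c ε μ ν u u' : ℤ) (hs : s * s = a * c + 1) (hε : ε * ε = 1)
    (hc : c ≠ 0)
    (h : ε * (1 + 2 * a * c * μ ^ 2) + 2 * s * c * μ + c ^ 2 * u =
      ε * (1 + 2 * (c + a - 2 * s) * c * ν ^ 2) + 2 * (c - s) * c * ν + c ^ 2 * u') :
    c ∣ 2 * (μ ^ 2 - ν ^ 2) * (a * s) + ((2 * ν) ^ 2 + ε * (2 * μ) + ε * (2 * ν)) := by
  have h' : 2 * ε * a * μ ^ 2 + 2 * s * μ + c * u =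
      2 * ε * (c + a - 2 * s) * ν ^ 2 + 2 * (c - s) * ν + c * u' := by
    apply mul_left_cancel₀ hc
    linear_combination h
  refine ⟨ε * s * (u' - u) - 2 * ε * a * μ + 2 * ε * (s - a) * ν + 2 * ν ^ 2 * (s - 2 * a), ?_⟩
  linear_combination (ε * s) * h' + (-2 * ε * μ - 2 * ε * ν - 4 * ν ^ 2) * hs +
    (-2 * a * s * μ ^ 2 + 2 * s * (c + a - 2 * s) * ν ^ 2) * hε

theorem odd_case (a s c ε μ ν u u' : ℤ) (hs : s * s = a * c + 1) (hε : ε * ε = 1)
    (hc : c ≠ 0)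
    (h : ε * s * (1 + 2 * a * c * μ * (μ + 1)) + c * (1 + 2 * μ) + c ^ 2 * u =
      (-ε) * (c - s) * (1 + 2 * (c + a - 2 * s) * c * ν * (ν + 1)) + c * (1 + 2 * ν) +
        c ^ 2 * u') :
    c ∣ 2 * (μ - ν) * (μ + ν + 1) * (a * s) +
      ((2 * ν + 1) ^ 2 + ε * (2 * μ + 1) + (-ε) * (2 * ν + 1)) := by
  have h' : ε + 2 * ε * (s * a * μ * (μ + 1) + (c - s) * (c + a - 2 * s) * ν * (ν + 1)) +
      2 * (μ - ν) + c * (u - u') = 0 := by
    apply mul_left_cancel₀ hc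
    linear_combination h
  refine ⟨-ε * (u - u') - 2 * ν * (ν + 1) * (c + 3 * a - 3 * s), ?_⟩
  linear_combination ε * h' + (-4 * ν * (ν + 1)) * hs +
    (-2 * a * s * μ * (μ + 1) - 1 - 2 * ν * (ν + 1) * (c - s) * (c + a - 2 * s)) * hε

theorem cnc : CncStatement := by
  intro a b c r x y z m n ε ε' hE hM
  obtain ⟨ha, hab, hr, hc⟩ := hE
  have hε : ε * ε = 1 := by rcases hM.hε with h | h <;> rw [h] <;> norm_num
  have hrz : (r : ℤ) * r = a * b + 1 := by exact_mod_cast hr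
  have hcz : (c : ℤ) = a + b + 2 * r := by exact_mod_cast hc
  have hs : ((a : ℤ) + r) * (a + r) = a * c + 1 := by rw [hcz]; linear_combination hrz
  have ht : ((b : ℤ) + r) * (b + r) = b * c + 1 := by rw [hcz]; linear_combination hrz
  have hc0 : (c : ℤ) ≠ 0 := by
    have : 0 < c := by omega
    exact_mod_cast this.ne'
  have hb : (b : ℤ) = c + a - 2 * (a + r) := by rw [hcz]; ring
  have ht' : (b : ℤ) + r = c - (a + r) := by rw [hcz]; ring
  rcases hM.par with ⟨⟨μ, hm⟩, ⟨ν, hn⟩, he⟩ | ⟨⟨μ, hm⟩, ⟨ν, hn⟩, he⟩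
  · have hm2 : m = 2 * μ := by omega
    have hn2 : n = 2 * ν := by omega
    obtain ⟨u, v, h1⟩ := sqg_even a c (a + r) ε hs μ
    obtain ⟨u', v', h2⟩ := sqg_even b c (b + r) ε' ht ν
    have g1 := hM.e1
    have g2 := hM.e2
    rw [hm2, h1] at g1
    rw [hn2, h2] at g2
    have z1 := congrArg Prod.fst g1
    have z2 := congrArg Prod.fst g2
    simp only at z1 z2
    have key := z1.trans z2.symm
    rw [he, ht', hb] at key
    have hd := even_case a (a + r) c ε μ ν u u' hs hε hc0 key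
    refine ⟨2 * ((μ : ℤ) ^ 2 - (ν : ℤ) ^ 2), ?_, ?_⟩
    · rw [hm2, hn2]; push_cast; ring
    · rw [hm2, hn2, he]
      push_cast
      exact hd
  · obtain ⟨u, h1⟩ := sqg_odd a c (a + r) ε hs μ
    obtain ⟨u', h2⟩ := sqg_odd b c (b + r) ε' ht ν
    have g1 := congrArg Prod.fst hM.e1
    have g2 := congrArg Prod.fst hM.e2
    rw [hm, h1] at g1
    rw [hn, h2] at g2
    simp only at g1 g2
    have key := g1.trans g2.symm
    rw [he, ht', hb] at key
    have hd := odd_case a (a + r) c ε μ ν u u' hs hε hc0 key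
    refine ⟨2 * ((μ : ℤ) - ν) * (μ + ν + 1), ?_, ?_⟩
    · rw [hm, hn]; push_cast; ring
    · rw [hm, hn, he]
      push_cast
      exact hd

end Pool.Agent.DIO.H59
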