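import Pool.Agent.Helper40_Dio.Stmt

/-! # DIO, module RNG (helper59): the order `ℤ[√p, √q]`. -/

set_option autoImplicit false

namespace Pool.Agent.DIO.H59

open Real QuadraticAlgebra

/-- extension of a ring hom to a quadratic algebra -/
noncomputable def qext {R : Type} [CommRing R] (f : R →+* ℝ) (a : R) (s : ℝ)
    (hs : s * s = f a) : QuadraticAlgebra R a 0 →+* ℝ where
  toFun z := f z.re + f z.im * s
  map_one' := by simp
  map_zero' := by simp
  map_add' z w := by simp only [re_add, im_add, map_add]; ring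
  map_mul' z w := by
    simp only [re_mul, im_mul, map_add, map_mul, map_zero]
    linear_combination (-(f z.im * f w.im)) * hs

theorem qext_apply {R : Type} [CommRing R] (f : R →+* ℝ) (a : R) (s : ℝ)
    (hs : s * s = f a) (z : QuadraticAlgebra R a 0) :
    qext f a s hs z = f z.re + f z.im * s := rfl

theorem irr_lin {s : ℝ} (hs : Irrational s) (a b : ℤ) (h : (a : ℝ) + b * s = 0) :
    a = 0 ∧ b = 0 := by
  by_cases hb : b = 0
  · subst hb
    simp only [Int.cast_zero, zero_mul, add_zero] at h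
    exact ⟨by exact_mod_cast h, rfl⟩
  · exfalso
    have hb' : (b : ℝ) ≠ 0 := by exact_mod_cast hb
    have h1 : s = ((-a / b : ℚ) : ℝ) := by
      push_cast
      field_simp
      linarith
    exact hs ⟨_, h1.symm⟩

theorem irr_quad {s t : ℝ} (hs : Irrational s) (ht : Irrational t) (hst : Irrational (s * t))
    (p q : ℤ) (hp : s * s = p) (hq : t * t = q) (a b c e : ℤ)
    (h : ((a : ℝ) + b * s) + (c + e * s) * t = 0) : a = 0 ∧ b = 0 ∧ c = 0 ∧ e = 0 := by
  by_cases hce : (c : ℝ) + e * s = 0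
  · obtain ⟨hc, he⟩ := irr_lin hs c e hce
    rw [hce, zero_mul, add_zero] at h
    obtain ⟨ha, hb⟩ := irr_lin hs a b h
    exact ⟨ha, hb, hc, he⟩
  · exfalso
    have hce' : (c : ℝ) - e * s ≠ 0 := by
      intro h0
      have h1 : (c : ℝ) + ((-e : ℤ) : ℝ) * s = 0 := by push_cast; linarith
      obtain ⟨hc, he⟩ := irr_lin hs c (-e) h1
      apply hce
      have he' : e = 0 := by omega
      rw [hc, he']; simp
    -- `n t = G + H s`
    have hn : ((c * c - p * (e * e) : ℤ) : ℝ) ≠ 0 := by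
      push_cast
      rw [← hp]
      have : (c : ℝ) * c - s * s * (e * e) = (c + e * s) * (c - e * s) := by ring
      rw [this]
      exact mul_ne_zero hce hce'
    set n : ℤ := c * c - p * (e * e) with hndef
    set G : ℤ := -(a * c - p * (b * e)) with hG
    set H : ℤ := -(b * c - a * e) with hH
    have hnt : (n : ℝ) * t = G + H * s := by
      rw [hndef, hG, hH]
      push_cast
      rw [← hp]
      linear_combination (c - e * s) * h
    have hsq : ((G * G + p * (H * H) - n * n * q : ℤ) : ℝ) + ((2 * (G * H) : ℤ) : ℝ) * s = 0 := by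
      push_cast
      rw [← hp, ← hq]
      linear_combination (-((n : ℝ) * t + (G + H * s))) * hnt
    obtain ⟨_, hGH⟩ := irr_lin hs _ _ hsq
    have hGH' : G = 0 ∨ H = 0 := by
      have : G * H = 0 := by omega
      exact mul_eq_zero.mp this
    rcases hGH' with h0 | h0
    · -- `n t = H s`, so `n (s t) = H p`
      have h1 : ((-(H * p) : ℤ) : ℝ) + (n : ℝ) * (s * t) = 0 := by
        rw [h0] at hnt
        push_cast at hnt ⊢
        rw [← hp]
        linear_combination s * hnt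
      obtain ⟨_, h2⟩ := irr_lin hst _ _ h1
      exact hn (by rw [h2]; simp)
    · have h1 : ((-G : ℤ) : ℝ) + (n : ℝ) * t = 0 := by
        rw [h0] at hnt
        push_cast at hnt ⊢
        linarith
      obtain ⟨_, h2⟩ := irr_lin ht _ _ h1
      exact hn (by rw [h2]; simp)

theorem abs_int_le {x : ℤ} {s H : ℝ} (hs : 1 ≤ s) (h : |(x : ℝ) * s| ≤ H) :
    |(x : ℝ)| ≤ H := by
  rw [abs_mul, abs_of_pos (by linarith : (0 : ℝ) < s)] at h
  have : |(x : ℝ)| * 1 ≤ |(x : ℝ)| * s := mul_le_mul_of_nonneg_left hs (abs_nonneg _)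
  linarith

theorem usq (p q : ℕ) : (⟨⟨0, 1⟩, 0⟩ : QuadraticAlgebra (QuadraticAlgebra ℤ (p : ℤ) 0)
    ((q : ℕ) : QuadraticAlgebra ℤ (p : ℤ) 0) 0) * ⟨⟨0, 1⟩, 0⟩ = ((p : ℕ) : QuadraticAlgebra
    (QuadraticAlgebra ℤ (p : ℤ) 0) ((q : ℕ) : QuadraticAlgebra ℤ (p : ℤ) 0) 0) := by
  apply QuadraticAlgebra.ext
  · apply QuadraticAlgebra.ext
    · simp
    · simp
  · apply QuadraticAlgebra.ext
    · simp
    · simp

theorem vsq (p q : ℕ) : (⟨0, 1⟩ : QuadraticAlgebra (QuadraticAlgebra ℤ (p : ℤ) 0)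
    ((q : ℕ) : QuadraticAlgebra ℤ (p : ℤ) 0) 0) * ⟨0, 1⟩ = ((q : ℕ) : QuadraticAlgebra
    (QuadraticAlgebra ℤ (p : ℤ) 0) ((q : ℕ) : QuadraticAlgebra ℤ (p : ℤ) 0) 0) := by
  apply QuadraticAlgebra.ext
  · apply QuadraticAlgebra.ext
    · simp
    · simp
  · apply QuadraticAlgebra.ext
    · simp
    · simp

theorem rng : RngStatement := by
  intro p q hp hq hpq
  have ip : Irrational √(p : ℝ) := irrational_sqrt_natCast_iff.mpr hp
  have iq : Irrational √(q : ℝ) := irrational_sqrt_natCast_iff.mpr hq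
  have ipq : Irrational (√(p : ℝ) * √(q : ℝ)) := by
    have h := irrational_sqrt_natCast_iff.mpr hpq
    push_cast at h
    rwa [Real.sqrt_mul (Nat.cast_nonneg p)] at h
  have hp1 : (1 : ℝ) ≤ √(p : ℝ) := by
    rw [Real.one_le_sqrt]
    have : 1 ≤ p := Nat.one_le_iff_ne_zero.mpr (fun h => hp ⟨0, by simp [h]⟩)
    exact_mod_cast this
  have hq1 : (1 : ℝ) ≤ √(q : ℝ) := by
    rw [Real.one_le_sqrt]
    have : 1 ≤ q := Nat.one_le_iff_ne_zero.mpr (fun h => hq ⟨0, by simp [h]⟩)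
    exact_mod_cast this
  set s : ℝ := √(p : ℝ) with hsdef
  set t : ℝ := √(q : ℝ) with htdef
  have hss : s * s = ((p : ℤ) : ℝ) := by
    rw [hsdef]; simp [Real.mul_self_sqrt]
  have htt : t * t = ((q : ℤ) : ℝ) := by
    rw [htdef]; simp [Real.mul_self_sqrt]
  let R1 : Type := QuadraticAlgebra ℤ (p : ℤ) 0
  let S : Type := QuadraticAlgebra (QuadraticAlgebra ℤ (p : ℤ) 0)
    ((q : ℕ) : QuadraticAlgebra ℤ (p : ℤ) 0) 0
  have e1 : ∀ ε : ℝ, ε * ε = 1 → (ε * s) * (ε * s) = (Int.castRingHom ℝ) (p : ℤ) := by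
    intro ε he
    rw [eq_intCast]
    linear_combination (s * s) * he + hss
  have e2 : ∀ ε : ℝ, ε * ε = 1 → ∀ f : QuadraticAlgebra ℤ (p : ℤ) 0 →+* ℝ,
      (ε * t) * (ε * t) = f ((q : ℕ) : QuadraticAlgebra ℤ (p : ℤ) 0) := by
    intro ε he f
    rw [map_natCast]
    have : t * t = ((q : ℕ) : ℝ) := by rw [htt]; simp
    linear_combination (t * t) * he + this
  let σ0 : S →+* ℝ := qext (qext (Int.castRingHom ℝ) (p : ℤ) (1 * s) (e1 1 (by norm_num)))
    _ (1 * t) (e2 1 (by norm_num) _)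
  let σ1 : S →+* ℝ := qext (qext (Int.castRingHom ℝ) (p : ℤ) (-1 * s) (e1 (-1) (by norm_num)))
    _ (1 * t) (e2 1 (by norm_num) _)
  let σ2 : S →+* ℝ := qext (qext (Int.castRingHom ℝ) (p : ℤ) (1 * s) (e1 1 (by norm_num)))
    _ (-1 * t) (e2 (-1) (by norm_num) _)
  let σ3 : S →+* ℝ := qext (qext (Int.castRingHom ℝ) (p : ℤ) (-1 * s) (e1 (-1) (by norm_num)))
    _ (-1 * t) (e2 (-1) (by norm_num) _)
  have f0 : ∀ x : S, σ0 x = ((x.re.re : ℝ) + x.re.im * s) + (x.im.re + x.im.im * s) * t := by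
    intro x
    show ((x.re.re : ℤ) : ℝ) + ((x.re.im : ℤ) : ℝ) * (1 * s) +
      (((x.im.re : ℤ) : ℝ) + ((x.im.im : ℤ) : ℝ) * (1 * s)) * (1 * t) = _
    ring
  have f1 : ∀ x : S, σ1 x = ((x.re.re : ℝ) + x.re.im * (-s)) + (x.im.re + x.im.im * (-s)) * t := by
    intro x
    show ((x.re.re : ℤ) : ℝ) + ((x.re.im : ℤ) : ℝ) * (-1 * s) +
      (((x.im.re : ℤ) : ℝ) + ((x.im.im : ℤ) : ℝ) * (-1 * s)) * (1 * t) = _
    ring
  have f2 : ∀ x : S, σ2 x = ((x.re.re : ℝ) + x.re.im * s) + (x.im.re + x.im.im * s) * (-t) := by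
    intro x
    show ((x.re.re : ℤ) : ℝ) + ((x.re.im : ℤ) : ℝ) * (1 * s) +
      (((x.im.re : ℤ) : ℝ) + ((x.im.im : ℤ) : ℝ) * (1 * s)) * (-1 * t) = _
    ring
  have f3 : ∀ x : S, σ3 x =
      ((x.re.re : ℝ) + x.re.im * (-s)) + (x.im.re + x.im.im * (-s)) * (-t) := by
    intro x
    show ((x.re.re : ℤ) : ℝ) + ((x.re.im : ℤ) : ℝ) * (-1 * s) +
      (((x.im.re : ℤ) : ℝ) + ((x.im.im : ℤ) : ℝ) * (-1 * s)) * (-1 * t) = _
    ring
  have hz : ∀ x : S, x.re.re = 0 ∧ x.re.im = 0 ∧ x.im.re = 0 ∧ x.im.im = 0 → x = 0 := by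
    rintro x ⟨h1, h2, h3, h4⟩
    apply QuadraticAlgebra.ext
    · apply QuadraticAlgebra.ext
      · exact h1
      · exact h2
    · apply QuadraticAlgebra.ext
      · exact h3
      · exact h4
  have hss' : (-s) * (-s) = ((p : ℤ) : ℝ) := by rw [neg_mul_neg]; exact hss
  have htt' : (-t) * (-t) = ((q : ℤ) : ℝ) := by rw [neg_mul_neg]; exact htt
  have i0 : ∀ x : S, σ0 x = 0 → x = 0 := by
    intro x hx
    rw [f0] at hx
    exact hz x (irr_quad ip iq ipq p q hss htt _ _ _ _ hx)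
  have i1 : ∀ x : S, σ1 x = 0 → x = 0 := by
    intro x hx
    rw [f1] at hx
    exact hz x (irr_quad ip.neg iq (by rw [neg_mul]; exact ipq.neg) p q hss' htt _ _ _ _ hx)
  have i2 : ∀ x : S, σ2 x = 0 → x = 0 := by
    intro x hx
    rw [f2] at hx
    exact hz x (irr_quad ip iq.neg (by rw [mul_neg]; exact ipq.neg) p q hss htt' _ _ _ _ hx)
  have i3 : ∀ x : S, σ3 x = 0 → x = 0 := by
    intro x hx
    rw [f3] at hx
    exact hz x (irr_quad ip.neg iq.neg (by rw [neg_mul_neg]; exact ipq) p q hss' htt' _ _ _ _ hx)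
  let σ : Fin 4 → S →+* ℝ := ![σ0, σ1, σ2, σ3]
  let crd : S →+ (Fin 4 → ℤ) :=
    { toFun := fun x => ![x.re.re, x.re.im, x.im.re, x.im.im]
      map_zero' := by ext i; fin_cases i <;> rfl
      map_add' := by intro x y; ext i; fin_cases i <;> rfl }
  let O : Ord4 S :=
    { σ := σ
      crd := crd
      crd_inj := by
        intro x hx
        exact hz x ⟨congrFun hx 0, congrFun hx 1, congrFun hx 2, congrFun hx 3⟩
      crd_le := by
        intro x H hH
        have g0 : |σ0 x| ≤ H := hH 0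
        have g1 : |σ1 x| ≤ H := hH 1
        have g2 : |σ2 x| ≤ H := hH 2
        have g3 : |σ3 x| ≤ H := hH 3
        rw [f0] at g0
        rw [f1] at g1
        rw [f2] at g2
        rw [f3] at g3
        rw [abs_le] at g0 g1 g2 g3
        have hst1 : 1 ≤ s * t := by nlinarith
        intro i
        fin_cases i
        · show |((x.re.re : ℤ) : ℝ)| ≤ H
          rw [abs_le]
          constructor <;> nlinarith [g0.1, g0.2, g1.1, g1.2, g2.1, g2.2, g3.1, g3.2]
        · show |((x.re.im : ℤ) : ℝ)| ≤ H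
          refine abs_int_le hp1 ?_
          rw [abs_le]
          constructor <;> nlinarith [g0.1, g0.2, g1.1, g1.2, g2.1, g2.2, g3.1, g3.2]
        · show |((x.im.re : ℤ) : ℝ)| ≤ H
          refine abs_int_le hq1 ?_
          rw [abs_le]
          constructor <;> nlinarith [g0.1, g0.2, g1.1, g1.2, g2.1, g2.2, g3.1, g3.2]
        · show |((x.im.im : ℤ) : ℝ)| ≤ H
          refine abs_int_le hst1 ?_
          rw [abs_le]
          constructor <;> nlinarith [g0.1, g0.2, g1.1, g1.2, g2.1, g2.2, g3.1, g3.2]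
      norm_ge := by
        intro x hx
        have hne : σ0 x * σ1 x * σ2 x * σ3 x ≠ 0 := by
          refine mul_ne_zero (mul_ne_zero (mul_ne_zero ?_ ?_) ?_) ?_
          · exact fun h => hx (i0 x h)
          · exact fun h => hx (i1 x h)
          · exact fun h => hx (i2 x h)
          · exact fun h => hx (i3 x h)
        set x0 := x.re.re
        set x1 := x.re.im
        set x2 := x.im.re
        set x3 := x.im.im
        have hN : σ0 x * σ1 x * σ2 x * σ3 x =
            (((x0 ^ 2 + p * x1 ^ 2 - q * (x2 ^ 2 + p * x3 ^ 2)) ^ 2 -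
              p * (2 * x0 * x1 - 2 * q * x2 * x3) ^ 2 : ℤ) : ℝ) := by
          rw [f0, f1, f2, f3]
          push_cast
          have a1 : ((p : ℤ) : ℝ) = s ^ 2 := by rw [← hss]; ring
          have a2 : ((q : ℤ) : ℝ) = t ^ 2 := by rw [← htt]; ring
          have b1 : ((p : ℕ) : ℝ) = s ^ 2 := by rw [← a1]; simp
          have b2 : ((q : ℕ) : ℝ) = t ^ 2 := by rw [← a2]; simp
          rw [b1, b2]
          ring
        rw [Fin.prod_univ_four]
        show 1 ≤ |σ0 x| * |σ1 x| * |σ2 x| * |σ3 x|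
        rw [← abs_mul, ← abs_mul, ← abs_mul, hN, ← Int.cast_abs]
        rw [hN] at hne
        have : (1 : ℤ) ≤ |(x0 ^ 2 + p * x1 ^ 2 - q * (x2 ^ 2 + p * x3 ^ 2)) ^ 2 -
              p * (2 * x0 * x1 - 2 * q * x2 * x3) ^ 2| := by
          apply Int.one_le_abs
          intro h0
          apply hne
          rw [h0]; simp
        exact_mod_cast this }
  refine ⟨S, inferInstance, O, (⟨⟨0, 1⟩, 0⟩ : S), (⟨0, 1⟩ : S), ?_, ?_, ?_, ?_, ?_, ?_, ?_, ?_,
    ?_, ?_, ?_⟩
  · exact usq p q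
  · exact vsq p q
  · intro j x hx
    fin_cases j
    · exact i0 x hx
    · exact i1 x hx
    · exact i2 x hx
    · exact i3 x hx
  · show σ0 _ = _
    rw [f0]; simp
  · show σ0 _ = _
    rw [f0]; simp
  · show σ1 _ = _
    rw [f1]; simp
  · show σ1 _ = _
    rw [f1]; simp
  · show σ2 _ = _
    rw [f2]; simp
  · show σ2 _ = _
    rw [f2]; simp
  · show σ3 _ = _
    rw [f3]; simp
  · show σ3 _ = _
    rw [f3]; simp

end Pool.Agent.DIO.H59
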