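import Pool.Agent.Helper40_Dio.FStmt

/-! # DIO, Part F, module APX (helper59): the indices are polylogarithmic. -/

set_option autoImplicit false

namespace Pool.Agent.DIO.H59

open Real Pool.Agent.DIO

theorem apx_sq_eps {ε : ℤ} (h : ε = 1 ∨ ε = -1) : ε ^ 2 = 1 := by
  rcases h with rfl | rfl <;> norm_num

theorem apx_c_big {a b c r s t g u v w : ℕ} (h : NEd a b c r s t g u v w) (hab : a < b) :
    8 < c ∧ 4 * a < c ∧ 4 * b < c := by
  have h1 := h.ha
  have h2 := h.hg
  have h3 := h.c_gt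
  have h4 : b ≤ a * b * g := by
    calc b = 1 * b * 1 := by ring
      _ ≤ a * b * g := Nat.mul_le_mul (Nat.mul_le_mul h1 le_rfl) h2
  have h5 : a ≤ a * b * g := by
    have : 1 ≤ b := by omega
    calc a = a * 1 * 1 := by ring
      _ ≤ a * b * g := Nat.mul_le_mul (Nat.mul_le_mul le_rfl this) h2
  refine ⟨by omega, by omega, by omega⟩

theorem apx_z_gt {a b c d r s t : ℕ} {x y z : ℤ} (h : Ctx a b c d r s t x y z) : 1 < z := by
  have h1 := h.hz
  have h2 := h.z2
  have h3 : (0 : ℤ) < c := by exact_mod_cast (h.ha.trans (h.hab.trans h.hbc))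
  have h4 : (0 : ℤ) < d := by exact_mod_cast (h.ha.trans (h.hab.trans (h.hbc.trans h.hcd)))
  by_contra hc
  have h5 : z = 1 := by omega
  rw [h5] at h2
  linarith [mul_pos h3 h4]

theorem apx_pos_of_sq {n k : ℕ} (h : n * n = k + 1) : (0 : ℤ) < n := by
  rcases Nat.eq_zero_or_pos n with rfl | h1
  · simp at h
  · exact_mod_cast h1

theorem apx_grow (a b r : ℕ) (hr : 2 ≤ r) (l : ℕ) :
    (2 : ℤ) ^ l ≤ (sqg a b r 1 1 l).1 ∧ 0 ≤ (sqg a b r 1 1 l).2 := by
  induction l with
  | zero => simp [sqg]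
  | succ l ih =>
    obtain ⟨h1, h2⟩ := ih
    have hr' : (2 : ℤ) ≤ r := by exact_mod_cast hr
    have ha : (0 : ℤ) ≤ a := by positivity
    have hb : (0 : ℤ) ≤ b := by positivity
    have hp : (0 : ℤ) < 2 ^ l := by positivity
    have h3 : (0 : ℤ) ≤ (sqg a b r 1 1 l).1 := by linarith
    refine ⟨?_, ?_⟩
    · simp only [sqg]
      have h4 : 2 * (sqg a b r 1 1 l).1 ≤ r * (sqg a b r 1 1 l).1 :=
        mul_le_mul_of_nonneg_right hr' h3
      have h5 : 0 ≤ b * (sqg a b r 1 1 l).2 := mul_nonneg hb h2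
      rw [pow_succ]
      linarith
    · simp only [sqg]
      have h4 : 0 ≤ r * (sqg a b r 1 1 l).2 := mul_nonneg (by linarith) h2
      have h5 : 0 ≤ a * (sqg a b r 1 1 l).1 := mul_nonneg ha h3
      linarith

/-- Module APX. -/
theorem apx (hApb : ApbStatement) (hFdb : FdbStatement) : ApxStatement := by
  obtain ⟨C1, hC1, hA⟩ := hApb
  obtain ⟨C2, hC2, hD⟩ := hFdb
  refine ⟨C1 + 2 * C2, by linarith, ?_⟩
  intro a b c d r s t g u v w x y z hctx hned
  obtain ⟨hc8, hca, hcb⟩ := apx_c_big hned hctx.hab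
  have hz1 := apx_z_gt hctx
  have hr2 := hctx.hr
  have hs2 := hctx.hs
  have ht2 := hctx.ht
  have hc8' : (8 : ℤ) < c := by exact_mod_cast hc8
  have hca' : (4 : ℤ) * a < c := by exact_mod_cast hca
  have hcb' : (4 : ℤ) * b < c := by exact_mod_cast hcb
  have ha0 : (0 : ℤ) < a := by exact_mod_cast hctx.ha
  have hb0 : (0 : ℤ) < b := by exact_mod_cast hctx.ha.trans hctx.hab
  have hrZ : (r : ℤ) * r = a * b + 1 := by exact_mod_cast hr2
  have hsZ : (s : ℤ) * s = a * c + 1 := by exact_mod_cast hs2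
  have htZ : (t : ℤ) * t = b * c + 1 := by exact_mod_cast ht2
  have hc0 : (0 : ℤ) < c := by linarith
  have hac4 : 4 * ((a : ℤ) * c + 1) < (c : ℤ) ^ 2 := by
    have h1 : (4 : ℤ) * a + 1 ≤ c := hca'
    have h2 := mul_le_mul_of_nonneg_right h1 hc0.le
    linarith [sq (c : ℤ)]
  have hbc4 : 4 * ((b : ℤ) * c + 1) < (c : ℤ) ^ 2 := by
    have h1 : (4 : ℤ) * b + 1 ≤ c := hcb'
    have h2 := mul_le_mul_of_nonneg_right h1 hc0.le
    linarith [sq (c : ℤ)]
  have hc16 : 4 * (1 : ℤ) < (c : ℤ) ^ 2 := by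
    have h2 := mul_lt_mul'' hc8' hc8' (by norm_num) (by norm_num)
    linarith [sq (c : ℤ)]
  have hlog : 1 ≤ log (c : ℝ) := by
    have h1 : exp 1 ≤ (c : ℝ) := by
      have h2 : (3 : ℝ) ≤ c := by
        have : (3 : ℕ) ≤ c := by omega
        exact_mod_cast this
      have h3 := Real.exp_one_lt_d9
      linarith
    exact (Real.le_log_iff_exp_le (by linarith [Real.exp_pos 1])).2 h1
  have hp60 : (log (c : ℝ)) ^ 60 ≤ (log (c : ℝ)) ^ 61 := pow_le_pow_right₀ hlog (by norm_num)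
  have hp0 : 0 ≤ (log (c : ℝ)) ^ 61 := by positivity
  have key : ∀ {z0 x0 z1 y1 : ℤ} {m n : ℕ}, Meet1 a b c r s t z0 x0 z1 y1 x y z m n →
      (m : ℝ) + n ≤ (C1 + 2 * C2) * (log c) ^ 61 := by
    intro z0 x0 z1 y1 m n hM
    have h1 := hA _ _ _ _ _ _ _ _ _ _ _ _ _ _ _ hM
    have h2 : C1 * (log (c : ℝ)) ^ 60 ≤ C1 * (log (c : ℝ)) ^ 61 :=
      mul_le_mul_of_nonneg_left hp60 (by linarith)
    have h3 : 0 ≤ 2 * C2 * (log (c : ℝ)) ^ 61 := by positivity
    linarith
  refine ⟨?_, ?_, ?_⟩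
  · intro f W F1 F2 ε μ ν hT
    obtain ⟨hε, hW, hF1, hF2, hf, hμ, hν, e1, e2⟩ := hT
    have hε2 := apx_sq_eps hε
    have hWZ : (W : ℤ) * W = c * f + 1 := by exact_mod_cast hW
    have hF1Z : (F1 : ℤ) * F1 = a * f + 1 := by exact_mod_cast hF1
    have hF2Z : (F2 : ℤ) * F2 = b * f + 1 := by exact_mod_cast hF2
    have hfZ : (4 : ℤ) * f + 1 ≤ c := by
      have : 4 * f + 1 ≤ c := hf
      exact_mod_cast this
    have hWs : (ε * W) ^ 2 = (c : ℤ) * f + 1 := by
      rw [mul_pow, hε2]; linear_combination hWZ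
    have hsm : 4 * (ε * W) ^ 2 < (c : ℤ) ^ 2 := by
      rw [hWs]
      have h5 := mul_le_mul_of_nonneg_right hfZ hc0.le
      linarith [sq (c : ℤ)]
    have hM : Meet1 a b c r s t (ε * W) F1 (ε * W) F2 x y z (2 * μ) (2 * ν) :=
      { ha := hctx.ha, hab := hctx.hab, hbc := hctx.hbc, hr := hr2, hs := hs2, ht := ht2
        x0pos := apx_pos_of_sq hF1
        y1pos := apx_pos_of_sq hF2
        p0 := by rw [hWs]; linear_combination (-(c : ℤ)) * hF1Z
        p1 := by rw [hWs]; linear_combination (-(c : ℤ)) * hF2Z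
        h0 := hsm
        h1 := hsm
        hz := hz1
        e1 := e1
        e2 := e2 }
    have h1 := key hM
    push_cast at h1
    have h2 : (0 : ℝ) ≤ μ := by positivity
    have h3 : (0 : ℝ) ≤ ν := by positivity
    exact ⟨by linarith, by linarith⟩
  · intro ε μ ν hT
    obtain ⟨hε, hν, e1, e2⟩ := hT
    have hε2 := apx_sq_eps hε
    have hes : (ε * s) ^ 2 = (a : ℤ) * c + 1 := by
      rw [mul_pow, hε2]; linear_combination hsZ
    have hM : Meet1 a b c r s t ε 1 (ε * s) r x y z (2 * μ + 1) (2 * ν) :=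
      { ha := hctx.ha, hab := hctx.hab, hbc := hctx.hbc, hr := hr2, hs := hs2, ht := ht2
        x0pos := by norm_num
        y1pos := apx_pos_of_sq hr2
        p0 := by rw [hε2]; ring
        p1 := by rw [hes]; linear_combination (-(c : ℤ)) * hrZ
        h0 := by rw [hε2]; linarith
        h1 := by rw [hes]; linarith
        hz := hz1
        e1 := e1
        e2 := e2 }
    have h1 := key hM
    push_cast at h1
    have h2 : (0 : ℝ) ≤ μ := by positivity
    have h3 : (0 : ℝ) ≤ ν := by positivity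
    refine ⟨by linarith, by linarith, ?_⟩
    intro lam hl
    have hr2' : 2 ≤ r := by
      have h4 : 0 < a * b := Nat.mul_pos hctx.ha (hctx.ha.trans hctx.hab)
      by_contra hcon
      have h5 : r ≤ 1 := by omega
      have h6 : r * r ≤ 1 * 1 := Nat.mul_le_mul h5 h5
      omega
    have h4 := (apx_grow a b r hr2' (2 * lam + 1)).1
    rw [hl] at h4
    have h5 : y ≤ d := by
      have h6 := hctx.y2
      have h7 : (b : ℤ) < c := by exact_mod_cast hctx.hbc
      have h8 : (c : ℤ) + 1 ≤ d := by exact_mod_cast hctx.hcd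
      by_contra hcon
      have h9 : (d : ℤ) + 1 ≤ y := by omega
      have hd0 : (0 : ℤ) ≤ (d : ℤ) + 1 := by positivity
      have h10 : ((d : ℤ) + 1) * (d + 1) ≤ y * y := mul_le_mul h9 h9 hd0 (hd0.trans h9)
      have h11 : (b : ℤ) * d ≤ d * d :=
        mul_le_mul_of_nonneg_right (by linarith) (by positivity)
      have h12 : (0 : ℤ) ≤ d := by positivity
      linarith
    have h6 : (2 : ℤ) ^ lam ≤ d := by
      have h7 : (2 : ℤ) ^ lam ≤ 2 ^ (2 * lam + 1) := pow_le_pow_right₀ (by norm_num) (by omega)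
      exact h7.trans (h4.trans h5)
    have h7 : ((2 : ℝ)) ^ lam ≤ d := by exact_mod_cast h6
    have h8 : lam * log 2 ≤ log d := by
      rw [← Real.log_pow]
      exact Real.log_le_log (by positivity) h7
    have h9 := hD _ _ _ _ _ _ _ _ _ _ hctx
    have h10 : (1 : ℝ) / 2 ≤ log 2 := by
      have := Real.log_two_gt_d9
      linarith
    have h11 : (0 : ℝ) ≤ lam := by positivity
    have h12 : (lam : ℝ) * (1 / 2) ≤ lam * log 2 := mul_le_mul_of_nonneg_left h10 h11
    have h13 : 0 ≤ C1 * (log (c : ℝ)) ^ 61 := by positivity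
    linarith
  · intro ε μ ν hT
    obtain ⟨hε, hμ, e1, e2⟩ := hT
    have hε2 := apx_sq_eps hε
    have het : (ε * t) ^ 2 = (b : ℤ) * c + 1 := by
      rw [mul_pow, hε2]; linear_combination htZ
    have hM : Meet1 a b c r s t (ε * t) r ε 1 x y z (2 * μ) (2 * ν + 1) :=
      { ha := hctx.ha, hab := hctx.hab, hbc := hctx.hbc, hr := hr2, hs := hs2, ht := ht2
        x0pos := apx_pos_of_sq hr2
        y1pos := by norm_num
        p0 := by rw [het]; linear_combination (-(c : ℤ)) * hrZ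
        p1 := by rw [hε2]; ring
        h0 := by rw [het]; linarith
        h1 := by rw [hε2]; linarith
        hz := hz1
        e1 := e1
        e2 := e2 }
    have h1 := key hM
    push_cast at h1
    have h2 : (0 : ℝ) ≤ μ := by positivity
    have h3 : (0 : ℝ) ≤ ν := by positivity
    exact ⟨by linarith, by linarith⟩

end Pool.Agent.DIO.H59
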